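import Pool.Agent.P.MP_56bcbf_an.C.Final

namespace Pool.Agent.Results.MP_56bcbf_an.Converse

open Pool.Agent.P.MP_56bcbf_an Pool.Agent.P.MP_56bcbf_an.C Set MeasureTheory

theorem result (D U : Set ℂ) (hD : IsJordanDomain D) (hUD : U ⊆ D) (hH : IsHolderDomain U)
    (hE : ExtThick U) (p : ENNReal) (hp1 : 1 ≤ p) (hp : p ≠ ⊤) (a : ℂ) (ha : a ∈ U) :
    List.TFAE [Thin D U, Hp p (interior (D \ U)) = Lpa p (interior (D \ U)),
      ¬ ∃ C : NNReal, ∀ P : Polynomial ℂ, ‖P.eval a‖ₑ ≤
        C * eLpNorm (fun z => P.eval z) p (volume.restrict (interior (D \ U)))] := by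
  have hb : Bornology.IsBounded (interior (D \ U)) :=
    hD.2.2.1.subset (interior_subset.trans sdiff_subset)
  tfae_have 1 → 2 := fun h => complete_of_thin hD hUD h hp1 hp
  tfae_have 2 → 3 := by
    refine no_bpe isOpen_interior.measurableSet hb fun h => ?_
    obtain ⟨ψ, hi, hd, hU, -⟩ := hH
    obtain ⟨w, h1, h2⟩ := mem_closure_iff.1 h U (hU ▸ isOpen_image Metric.isOpen_ball hd
      (hi.mono Metric.ball_subset_closedBall) Metric.isOpen_ball subset_rfl) ha
    exact (interior_subset h2).2 h1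
  tfae_have 3 → 1 := fun h => by_contra fun k => h (bpe hb hH hE k hp1 ha)
  tfae_finish

end Pool.Agent.Results.MP_56bcbf_an.Converse
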