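import Pool.Agent.P.MP_56bcbf_an.Defs
import Pool.Agent.P.MP_56bcbf_an.Main

namespace Pool.Agent.Results.MP_56bcbf_an.PStarInfinite

open Pool.Agent.P.MP_56bcbf_an Set Metric MeasureTheory

theorem result : pStar = ⊤ := by
  have key : ∀ p : ENNReal, 1 ≤ p → p ≠ ⊤ → Cp p := by
    rintro p hp1 hp D U ⟨hD, -, hb, γ, hγ, hγi, hfr⟩ - hUD ⟨a, -, ω, ⟨ψ, hc, hi, hd, hU, -, rfl⟩, hω⟩
    have hb' : Bornology.IsBounded (interior (D \ U)) :=
      hb.subset (interior_subset.trans sdiff_subset)
    ext f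
    refine and_congr_right fun hf => ⟨fun h => ?_, fun ⟨g, hg, hfg⟩ ε hε => ?_⟩
    · refine analytic_of_limit isOpen_interior hb'.measure_lt_top.ne hp1 hf.1 fun ε hε => ?_
      obtain ⟨P, hP⟩ := h ε hε
      exact ⟨_, P.differentiable, hP⟩
    refine core hD hb hγ hγi hfr hd (hi.mono ball_subset_closedBall) hU hUD
      (fatou_thin hc (continuous_infDist_pt _) ?_) hp1 hp hf hg hfg hε
    have h1 : Continuous fun t : ℝ => ψ (Complex.exp (t * Complex.I)) :=
      hc.comp_continuous (by fun_prop) fun t => by simp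
    have h2 : Continuous fun z : ℂ => (-ENNReal.log (ENNReal.ofReal (infDist z Dᶜ))).toENNReal :=
      EReal.continuous_toENNReal.comp (ENNReal.continuous_log.comp
        (ENNReal.continuous_ofReal.comp (continuous_infDist_pt _))).neg
    rw [lintegral_map h2.measurable h1.measurable, lintegral_smul_measure, smul_eq_mul,
      ENNReal.mul_eq_top] at hω
    rcases hω with h | h
    · simpa [circleMap] using h.2
    · exact absurd h.1 (by simpa using Real.pi_pos)
  refine sSup_eq_top.2 fun b hb => ⟨b + 1, ⟨le_add_self, by simpa using hb.ne,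
    fun p hp1 hp => key p hp1 (ne_top_of_lt hp)⟩, ENNReal.lt_add_right hb.ne one_ne_zero⟩

end Pool.Agent.Results.MP_56bcbf_an.PStarInfinite
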