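import Pool.Agent.P.MP_56bcbf_an.R.All

namespace Pool.Agent.Results.MP_56bcbf_an.Ranges

open Pool.Agent.P.MP_56bcbf_an Pool.Agent.P.MP_56bcbf_an.R Set

theorem result : ∀ S : Set ℝ, List.TFAE
    [∃ D U : Set ℂ, IsJordanDomain D ∧ IsJordanDomain U ∧ U ⊆ D ∧ CRange D U = S,
      ∃ D U : Set ℂ, IsJordanDomain D ∧ IsJordanDomain U ∧ U ⊆ D ∧
        (∃ c : ℂ, frontier D ∩ frontier U = {c}) ∧ CRange D U = S,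
      S = ∅ ∨ S = Ici 1 ∨ ∃ p₀ : ℝ, 2 ≤ p₀ ∧ (S = Ico 1 p₀ ∨ S = Icc 1 p₀)] := by
  intro S
  tfae_have 1 → 3 := by
    rintro ⟨D, U, h1, h2, h3, rfl⟩
    exact all_CLS D U h1 h2 h3
  tfae_have 3 → 2 := fun h => by
    obtain ⟨U, h1, h2, h3, h4⟩ := all_CASE S h
    exact ⟨DD, U, all_POL.2.1, h1, h2, ⟨0, h3⟩, h4⟩
  tfae_have 2 → 1 := fun ⟨D, U, h1, h2, h3, _, h4⟩ => ⟨D, U, h1, h2, h3, h4⟩
  tfae_finish

end Pool.Agent.Results.MP_56bcbf_an.Ranges
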